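import Pool.Agent.K1H79.GE.StmB
import Pool.Agent.K1H76.RF2.T2
import Pool.Agent.K1H2.RF.Quad

/-! # An inert prime in `F(√-3)/F` (piece `S_NT`) -/

set_option autoImplicit false

namespace Pool.Agent.K1H2.GE

open NumberField IsDedekindDomain CohNT Pool.Agent.K1H79.RF Pool.Agent.K1H79.GE
open scoped Classical nonZeroDivisors

/-- the conjugation of `F(√-3)` -/
theorem exists_sig {F K : Type} [Field F] [NumberField F] [Field K] [NumberField K] [Algebra F K]
    (h2 : Module.finrank F K = 2) {ω : K} (hω : ω ^ 2 + ω + 1 = 0) (hF : NoOm F) :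
    ∃ σ : K ≃ₐ[F] K, σ ω = -1 - ω := by
  have hq : Algebra.IsQuadraticExtension F K := ⟨h2⟩
  have hn : Normal F K := inferInstance
  obtain ⟨f, hf⟩ : ∃ f : Polynomial F, f = Polynomial.X ^ 2 + Polynomial.X + 1 := ⟨_, rfl⟩
  have hd : f.natDegree = 2 := by rw [hf]; compute_degree!
  have hmon : f.Monic := by rw [hf]; monicity!
  have hirr : Irreducible f := by
    apply Polynomial.irreducible_of_degree_le_three_of_not_isRoot
    · rw [hd]; simp
    · intro x hx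
      rw [Polynomial.IsRoot, hf] at hx
      simp at hx
      exact hF x hx
  have hroot : Polynomial.aeval ω f = 0 := by
    rw [hf]; simpa using hω
  have hmin : f = minpoly F ω := minpoly.eq_of_irreducible_of_monic hirr hroot hmon
  refine minpoly.exists_algEquiv_of_root' (Algebra.IsAlgebraic.isAlgebraic ω) ?_
  rw [← hmin, hf]
  simp only [map_add, map_pow, Polynomial.aeval_X, map_one]
  linear_combination hω

/-- a sum over a finite set is bounded -/
theorem sm_fin (F : Type) [Field F] [NumberField F] (P : Pr F → Prop) (T : Finset (Pr F))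
    (hT : ∀ v, P v → v ∈ T) {s : ℝ} (hs : 1 < s) : Sm F P s ≤ T.card := by
  unfold Sm
  rw [tsum_eq_sum (s := T)]
  · calc ∑ v ∈ T, (if P v then ((Ideal.absNorm v.asIdeal : ℕ) : ℝ) ^ (-s) else 0) ≤ ∑ v ∈ T, (1 : ℝ) := by
          refine Finset.sum_le_sum fun v _ => ?_
          split_ifs
          · exact Real.rpow_le_one_of_one_le_of_nonpos (Pool.Agent.K1H76.RF2.nm_one v) (by linarith)
          · exact zero_le_one
      _ = T.card := by simp
  · intro v hv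
    rw [if_neg]
    exact fun h => hv (hT v h)

/-- only finitely many primes contain a given nonzero number -/
theorem fin_mem (F : Type) [Field F] [NumberField F] {a : 𝓞 F} (ha : a ≠ 0) :
    {v : Pr F | a ∈ v.asIdeal}.Finite := by
  have h0 : (Ideal.span {a} : Ideal (𝓞 F)) ≠ 0 := by
    rw [Ne, Ideal.zero_eq_bot, Ideal.span_singleton_eq_bot]; exact ha
  have h1 := Ideal.finite_factors (I := Ideal.span {a}) h0
  refine h1.subset fun v hv => ?_
  rw [Set.mem_ofPred_eq] at hv ⊢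
  rw [Ideal.dvd_span_singleton]
  exact hv

/-- the norm of a prime not above `3` is not divisible by `3` -/
theorem norm_mod {F : Type} [Field F] [NumberField F] {v : Pr F} (h3 : (3 : 𝓞 F) ∉ v.asIdeal) :
    Ideal.absNorm v.asIdeal % 3 ≠ 0 := by
  intro h
  have h1 : 3 ∣ Ideal.absNorm v.asIdeal := Nat.dvd_of_mod_eq_zero h
  have hfin : Finite (𝓞 F ⧸ v.asIdeal) := by
    have hv0 : Ideal.absNorm v.asIdeal ≠ 0 := by
      rw [Ne, Ideal.absNorm_eq_zero_iff]; exact v.ne_bot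
    rw [Ideal.absNorm_apply, Submodule.cardQuot_apply] at hv0
    exact Nat.finite_of_card_ne_zero hv0
  rw [Ideal.absNorm_apply, Submodule.cardQuot_apply] at h1
  have := Fintype.ofFinite (𝓞 F ⧸ v.asIdeal)
  have hp : Fact (Nat.Prime 3) := ⟨Nat.prime_three⟩
  rw [Nat.card_eq_fintype_card] at h1
  obtain ⟨x, hx⟩ := exists_prime_addOrderOf_dvd_card' 3 (by rw [Nat.card_eq_fintype_card]; exact h1) (G := 𝓞 F ⧸ v.asIdeal)
  have hx3 : (3 : ℕ) • x = 0 := by rw [← hx]; exact addOrderOf_nsmul_eq_zero x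
  have hx0 : x ≠ 0 := by
    intro h0
    rw [h0, addOrderOf_zero] at hx
    norm_num at hx
  have h4 : (3 : 𝓞 F ⧸ v.asIdeal) * x = 0 := by
    rw [nsmul_eq_mul] at hx3
    exact_mod_cast hx3
  have hdom : IsDomain (𝓞 F ⧸ v.asIdeal) := by
    have := v.isPrime
    exact Ideal.Quotient.isDomain v.asIdeal
  rcases mul_eq_zero.1 h4 with h5 | h5
  · apply h3
    rw [← Ideal.Quotient.eq_zero_iff_mem]
    have e : Ideal.Quotient.mk v.asIdeal (3 : 𝓞 F) = 3 := map_ofNat _ 3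
    rw [e]
    exact h5
  · exact hx0 h5

/-- a cube root of unity modulo a prime of norm `1` modulo `3` -/
theorem exists_z {F : Type} [Field F] [NumberField F] {v : Pr F} (h1 : Ideal.absNorm v.asIdeal % 3 = 1) :
    ∃ z : 𝓞 F, z ^ 2 + z + 1 ∈ v.asIdeal := by
  have hmax : v.asIdeal.IsMaximal := v.isMaximal
  have hv0 : Ideal.absNorm v.asIdeal ≠ 0 := by
    rw [Ne, Ideal.absNorm_eq_zero_iff]; exact v.ne_bot
  have hcard : Ideal.absNorm v.asIdeal = Nat.card (𝓞 F ⧸ v.asIdeal) := by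
    rw [Ideal.absNorm_apply, Submodule.cardQuot_apply]
  have hfin : Finite (𝓞 F ⧸ v.asIdeal) := by
    rw [hcard] at hv0
    exact Nat.finite_of_card_ne_zero hv0
  let _ : Field (𝓞 F ⧸ v.asIdeal) := Ideal.Quotient.field v.asIdeal
  have hp : Fact (Nat.Prime 3) := ⟨Nat.prime_three⟩
  have hc2 : Nat.card (𝓞 F ⧸ v.asIdeal)ˣ = Nat.card (𝓞 F ⧸ v.asIdeal) - 1 := Nat.card_units _
  have h3 : 3 ∣ Nat.card (𝓞 F ⧸ v.asIdeal)ˣ := by
    rw [hc2, ← hcard]
    have : 1 ≤ Ideal.absNorm v.asIdeal := Nat.one_le_iff_ne_zero.2 hv0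
    omega
  obtain ⟨x, hx⟩ := exists_prime_orderOf_dvd_card' 3 h3
  obtain ⟨z, hz⟩ := Ideal.Quotient.mk_surjective (x : 𝓞 F ⧸ v.asIdeal)
  refine ⟨z, ?_⟩
  rw [← Ideal.Quotient.eq_zero_iff_mem, map_add, map_add, map_pow, hz, map_one]
  have hx3 : (x : 𝓞 F ⧸ v.asIdeal) ^ 3 = 1 := by
    rw [← Units.val_pow_eq_pow_val, ← hx, pow_orderOf_eq_one, Units.val_one]
  have hx1 : (x : 𝓞 F ⧸ v.asIdeal) - 1 ≠ 0 := by
    intro h0
    have h4 : x = 1 := by
      apply Units.ext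
      rw [Units.val_one]
      linear_combination h0
    rw [h4, orderOf_one] at hx
    norm_num at hx
  have h5 : ((x : 𝓞 F ⧸ v.asIdeal) - 1) * ((x : 𝓞 F ⧸ v.asIdeal) ^ 2 + x + 1) = 0 := by
    linear_combination hx3
  exact (mul_eq_zero.1 h5).resolve_left hx1

/-- the norm of a prime which does not split in `F(√-3)` is not `1` modulo `3` -/
theorem not_one {F K : Type} [Field F] [NumberField F] [Field K] [NumberField K] [Algebra F K]
    (h2 : Module.finrank F K = 2) {ω : K} (hω : ω ^ 2 + ω + 1 = 0) (hF : NoOm F)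
    {v : Pr F} (hv : NSp K v) (h3 : (3 : 𝓞 F) ∉ v.asIdeal) : Ideal.absNorm v.asIdeal % 3 ≠ 1 := by
  intro h1
  obtain ⟨z, hz⟩ := exists_z h1
  obtain ⟨σ, hσ⟩ := exists_sig h2 hω hF
  obtain ⟨w, hw, hwu⟩ := hv
  have hv' : NSp K v := ⟨w, hw, hwu⟩
  have hint : IsIntegral ℤ ω := by
    refine ⟨Polynomial.X ^ 2 + Polynomial.X + 1, by monicity!, ?_⟩
    simpa using hω
  obtain ⟨o, ho⟩ : ∃ o : 𝓞 K, (o : K) = ω := ⟨⟨ω, hint⟩, rfl⟩
  have ho2 : o ^ 2 + o + 1 = 0 := by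
    apply RingOfIntegers.ext
    have : ((o ^ 2 + o + 1 : 𝓞 K) : K) = (o : K) ^ 2 + (o : K) + 1 := rfl
    rw [this, ho, hω]
    rfl
  have key : ∀ c : 𝓞 F, o - algebraMap (𝓞 F) (𝓞 K) c ∈ w.asIdeal → False := by
    intro c hc
    have h4 : (-1 - o) - algebraMap (𝓞 F) (𝓞 K) c ∈ w.asIdeal := by
      refine sig_mem' σ hv' hw hc ?_
      have e1 : (((-1 - o) - algebraMap (𝓞 F) (𝓞 K) c : 𝓞 K) : K) =
        -1 - (o : K) - ((algebraMap (𝓞 F) (𝓞 K) c : 𝓞 K) : K) := rfl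
      have e2 : ((o - algebraMap (𝓞 F) (𝓞 K) c : 𝓞 K) : K) = (o : K) - ((algebraMap (𝓞 F) (𝓞 K) c : 𝓞 K) : K) := rfl
      rw [e1, e2, map_sub, ho, hσ, alg_coe, AlgEquiv.commutes]
    have h5 : 2 * o + 1 ∈ w.asIdeal := by
      have h6 : 2 * o + 1 = (o - algebraMap (𝓞 F) (𝓞 K) c) - ((-1 - o) - algebraMap (𝓞 F) (𝓞 K) c) := by ring
      rw [h6]
      exact Ideal.sub_mem _ hc h4
    have h7 : algebraMap (𝓞 F) (𝓞 K) 3 ∈ w.asIdeal := by
      have h8 : algebraMap (𝓞 F) (𝓞 K) 3 = -((2 * o + 1) * (2 * o + 1)) := by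
        rw [map_ofNat]
        linear_combination 4 * ho2
      rw [h8]
      exact neg_mem (Ideal.mul_mem_right _ _ h5)
    rw [alg_mem hw] at h7
    exact h3 h7
  have h9 : (o - algebraMap (𝓞 F) (𝓞 K) z) * (o - algebraMap (𝓞 F) (𝓞 K) (-1 - z)) ∈ w.asIdeal := by
    have h10 : (o - algebraMap (𝓞 F) (𝓞 K) z) * (o - algebraMap (𝓞 F) (𝓞 K) (-1 - z)) =
        -algebraMap (𝓞 F) (𝓞 K) (z ^ 2 + z + 1) := by
      rw [map_sub, map_add, map_add, map_pow, map_neg, map_one]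
      linear_combination ho2
    rw [h10]
    exact neg_mem ((alg_mem hw _).2 hz)
  rcases w.isPrime.mem_or_mem h9 with h | h
  · exact key _ h
  · exact key _ h

theorem t_NT : S_NT := by
  intro hA1 F _ _ hF
  obtain ⟨K, _, _, _, h2, ω, hω⟩ := Pool.Agent.K1H2.RF.exists_quad F hF
  obtain ⟨C, hC⟩ := Pool.Agent.K1H76.RF2.t_A4 hA1 F K h2
  have h30 : (3 : 𝓞 F) ≠ 0 := by norm_num
  have hex : ∃ v : Pr F, NSp K v ∧ (3 : 𝓞 F) ∉ v.asIdeal := by
    by_contra hcon
    push Not at hcon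
    obtain ⟨T, hT⟩ : ∃ T : Finset (Pr F), T = (fin_mem F h30).toFinset := ⟨_, rfl⟩
    have hT2 : ∀ v : Pr F, NSp K v → v ∈ T := by
      intro v hv
      rw [hT, Set.Finite.mem_toFinset]
      exact hcon v hv
    obtain ⟨B, hB⟩ : ∃ B : ℝ, B = 2 * T.card + |C| + 1 := ⟨_, rfl⟩
    have hB0 : 0 < B := by rw [hB]; positivity
    have hs1 : 0 < Real.exp (-B) := Real.exp_pos _
    have hs2 : Real.exp (-B) ≤ 1 := by
      rw [Real.exp_le_one_iff]; linarith
    have h4 := hC (1 + Real.exp (-B)) (by linarith) (by linarith)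
    have h5 := sm_fin F (fun v => NSp K v) T hT2 (s := 1 + Real.exp (-B)) (by linarith)
    have h6 : Real.log (1 / (1 + Real.exp (-B) - 1)) = B := by
      rw [add_sub_cancel_left, one_div, ← Real.exp_neg, neg_neg, Real.log_exp]
    rw [h6] at h4
    have h7 := le_abs_self C
    linarith
  obtain ⟨v, hv, hv3⟩ := hex
  refine ⟨v.asIdeal, v.isPrime, v.ne_bot, ?_⟩
  have h8 := norm_mod hv3
  have h9 := not_one h2 hω hF hv hv3
  omega

end Pool.Agent.K1H2.GE
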